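import Pool.Agent.Hyf.Main

/-! The order of the centralizer divides the order of the inertial group. -/

set_option autoImplicit false

namespace Pool.Agent.Hyf

open Classical
open scoped Pointwise
open Pool.Agent.KB Pool.Agent.KB.ContrAux Pool.Agent.KBL Pool.Agent.KBZ Pool.Agent.KBU
  Pool.Agent.KBQ Pool.Agent.MSy Pool.Agent.BlkS Pool.Agent.PIs Pool.Agent.PIg Pool.Agent.BrZ
  Pool.Agent.MSf Pool.Agent.Isk Pool.Agent.Ity Pool.Agent.BrP Pool.Agent.Isp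

private theorem dv_stb {K H : Type} [Group K] [Group H] (𝔪 : Ideal AInt) {ι ι' : H →* K}
    {P P' : Subgroup K} (h : CenOf ι P) (h' : CenOf ι' P') (hι : ι = ι') (hP : P = P')
    (θ θ' : H → ℂ) (hθ : θ = θ') (k : K) : k ∈ Stb 𝔪 h θ ↔ k ∈ Stb 𝔪 h' θ' := by
  subst hι hP hθ
  rfl

theorem dv_card (G : Type) [Group G] [Finite G] (p : ℕ) (hp : p.Prime)
    (𝔪 : Ideal AInt)
    (h𝔪 : 𝔪.IsMaximal) (hp𝔪 : (p : AInt) ∈ 𝔪) (χ : G → ℂ) (hχ : χ ∈ Irr G)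
    (D : Subgroup G) (hab : ∀ a ∈ D, ∀ b ∈ D, a * b = b * a)
    (hD : Nat.card D = p ^ defect p (block 𝔪 χ))
    (ζ : Subgroup.centralizer (D : Set G) → ℂ)
    (hζ : ζ ∈ Irr (Subgroup.centralizer (D : Set G)))
    (hind : Induces 𝔪 (Subgroup.centralizer (D : Set G)) ζ χ) :
    ∃ e : ℕ, Nat.card (inertia 𝔪 D ζ) = e * Nat.card (Subgroup.centralizer (D : Set G)) := by
  have : Fintype G := Fintype.ofFinite G
  have : Fintype (Subgroup.centralizer (D : Set G)) := Fintype.ofFinite _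
  have hA := Sub_AbD p 𝔪 χ hχ D hab hD ζ hζ hind
  obtain ⟨D₀, E₀, _, _, _, _, _, A, hδ, hι, hζ'⟩ := ex_dat p hp 𝔪 h𝔪 hp𝔪 χ hχ D
    (Subgroup.centralizer (D : Set G)).subtype ζ hA
  have hmem : ∀ g, g ∈ Stb 𝔪 A.ab.cen A.ζ ↔ g ∈ inertia 𝔪 D ζ := fun g =>
    (dv_stb 𝔪 A.ab.cen (Sub_cen D) hι hδ A.ζ ζ hζ' g).trans (Sub_mem 𝔪 D ζ g).symm
  have hbot : EE E₀ (⊥ : Subgroup D₀) = ⊤ := by
    rw [eq_top_iff]
    intro t _ v hv
    rw [Subgroup.mem_bot] at hv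
    rw [hv, smul_one]
  have h1 := A.stb_card ⊥
  rw [hbot, Subgroup.card_top] at h1
  refine ⟨Nat.card E₀, ?_⟩
  rw [mul_comm, ← h1]
  refine Nat.card_congr (Equiv.subtypeEquivRight fun n => ?_)
  rw [← hmem]
  refine ⟨fun h => ⟨h, fun v hv => ?_⟩, fun h => h.1⟩
  rw [Subgroup.mem_bot] at hv
  rw [hv, map_one, mul_one, one_mul]

end Pool.Agent.Hyf
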